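import Mathlib

/-!
MP_6117a1_gt, Q1 (disproof).  The set `A` of all bijective amenable functions is a submonoid of
`Am` which is not of the form `P_X` for any class `X` of metric spaces.
-/

namespace Pool.Agent.Results.MP_6117a1_gt.SubmonoidNotRealised

open scoped NNReal

universe u

/-- `ρ : Y → Y → [0,∞)` is a metric on `Y`. -/
def IsMetric {Y : Type u} (ρ : Y → Y → ℝ≥0) : Prop :=
  (∀ x y, ρ x y = 0 ↔ x = y) ∧ (∀ x y, ρ x y = ρ y x) ∧ ∀ x y z, ρ x z ≤ ρ x y + ρ y z

/-- A class of nonempty metric spaces (with underlying sets in `Type u`), i.e. a subclass of `M`. -/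
structure MetricClass where
  /-- `(Y, ρ)` belongs to the class. -/
  Mem : (Y : Type u) → (Y → Y → ℝ≥0) → Prop
  nonempty : ∀ Y ρ, Mem Y ρ → Nonempty Y
  isMetric : ∀ Y ρ, Mem Y ρ → IsMetric ρ

/-- `P_X`: all `f : [0,∞) → [0,∞)` with `(Y, f ∘ ρ) ∈ X` whenever `(Y, ρ) ∈ X`. -/
def Preservers (X : MetricClass.{u}) : Set (ℝ≥0 → ℝ≥0) :=
  {f | ∀ (Y : Type u) (ρ : Y → Y → ℝ≥0), X.Mem Y ρ → X.Mem Y (fun x y => f (ρ x y))}

/-- Amenable functions: `f⁻¹(0) = {0}`. -/
def Amenable (f : ℝ≥0 → ℝ≥0) : Prop := ∀ x, f x = 0 ↔ x = 0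

/-- `A` is a submonoid of the monoid of amenable functions under composition. -/
def IsSubmonoidOfAm (A : Set (ℝ≥0 → ℝ≥0)) : Prop :=
  id ∈ A ∧ (∀ f ∈ A, ∀ g ∈ A, f ∘ g ∈ A) ∧ ∀ f ∈ A, Amenable f

lemma swap_amenable {a b : ℝ≥0} (ha : a ≠ 0) (hb : b ≠ 0) :
    Amenable (Equiv.swap a b) := by
  intro x
  have h0 : Equiv.swap a b 0 = 0 := Equiv.swap_apply_of_ne_of_ne ha.symm hb.symm
  constructor
  · intro h
    exact (Equiv.swap a b).injective (h.trans h0.symm)
  · rintro rfl; exact h0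

/-- In a metric space all whose images under amenable bijections are metric, a side of a triangle
equals one of the two others. -/
lemma side_eq {Y : Type u} {ρ : Y → Y → ℝ≥0} (hρ : IsMetric ρ)
    (h : ∀ f : ℝ≥0 → ℝ≥0, Function.Bijective f → Amenable f → IsMetric (fun x y => f (ρ x y)))
    {p q r : Y} (hpr : p ≠ r) : ρ p r = ρ p q ∨ ρ p r = ρ q r := by
  by_contra hc
  push Not at hc
  obtain ⟨h1, h2⟩ := hc
  have hs : ρ p r ≠ 0 := fun h0 => hpr ((hρ.1 _ _).1 h0)
  set M : ℝ≥0 := ρ p q + ρ q r + 1 with hM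
  have hM0 : M ≠ 0 := by positivity
  have hb := h (Equiv.swap (ρ p r) M) (Equiv.bijective _) (swap_amenable hs hM0)
  have ht := hb.2.2 p q r
  simp only at ht
  have e1 : Equiv.swap (ρ p r) M (ρ p r) = M := Equiv.swap_apply_left _ _
  have l1 : ρ p q < M := by
    rw [hM, add_assoc]; exact lt_add_of_pos_right _ (by positivity)
  have l2 : ρ q r < M := by
    have : ρ q r ≤ ρ p q + ρ q r := le_add_of_nonneg_left zero_le
    exact lt_of_le_of_lt this (lt_add_of_pos_right _ (by positivity))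
  have e2 : Equiv.swap (ρ p r) M (ρ p q) = ρ p q :=
    Equiv.swap_apply_of_ne_of_ne h1.symm l1.ne
  have e3 : Equiv.swap (ρ p r) M (ρ q r) = ρ q r :=
    Equiv.swap_apply_of_ne_of_ne h2.symm l2.ne
  rw [e1, e2, e3] at ht
  have : ρ p q + ρ q r < M := lt_add_of_pos_right _ (by positivity)
  exact absurd ht (not_le.2 this)

/-- Hence all triangles are equilateral. -/
lemma equilateral {Y : Type u} {ρ : Y → Y → ℝ≥0} (hρ : IsMetric ρ)
    (h : ∀ f : ℝ≥0 → ℝ≥0, Function.Bijective f → Amenable f → IsMetric (fun x y => f (ρ x y)))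
    {p q r : Y} (hpq : p ≠ q) (hqr : q ≠ r) (hpr : p ≠ r) : ρ p q = ρ p r := by
  have a := side_eq hρ h (q := q) hpr
  have b := side_eq hρ h (q := r) hpq
  have c := side_eq hρ h (q := p) hqr
  rw [hρ.2.1 r q] at b
  rw [hρ.2.1 q p] at c
  rcases a with a | a
  · exact a.symm
  · rcases b with b | b
    · exact b
    · rw [b, a]

lemma all_eq {Y : Type u} {ρ : Y → Y → ℝ≥0} (hρ : IsMetric ρ)
    (h : ∀ f : ℝ≥0 → ℝ≥0, Function.Bijective f → Amenable f → IsMetric (fun x y => f (ρ x y)))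
    {x y u v : Y} (hxy : x ≠ y) (huv : u ≠ v) : ρ x y = ρ u v := by
  -- all distances from a fixed point are equal
  have key : ∀ {p q r : Y}, p ≠ q → p ≠ r → ρ p q = ρ p r := by
    intro p q r hpq hpr
    by_cases hqr : q = r
    · rw [hqr]
    · exact equilateral hρ h hpq hqr hpr
  by_cases hxu : x = u
  · subst hxu; exact key hxy huv
  · calc ρ x y = ρ x u := key hxy hxu
      _ = ρ u x := hρ.2.1 _ _
      _ = ρ u v := key (Ne.symm hxu) huv

/-- Q1 of MP_6117a1_gt has a negative answer. -/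
theorem result : ∃ A : Set (ℝ≥0 → ℝ≥0), IsSubmonoidOfAm A ∧
    ∀ X : MetricClass.{u}, Preservers X ≠ A := by
  refine ⟨{f | Function.Bijective f ∧ Amenable f}, ⟨?_, ?_, ?_⟩, ?_⟩
  · exact ⟨Function.bijective_id, fun x => Iff.rfl⟩
  · rintro f ⟨hf, hf'⟩ g ⟨hg, hg'⟩
    exact ⟨hf.comp hg, fun x => (hf' (g x)).trans (hg' x)⟩
  · rintro f ⟨-, hf⟩; exact hf
  · intro X hX
    have hA : ∀ f : ℝ≥0 → ℝ≥0, Function.Bijective f → Amenable f → f ∈ Preservers X := by
      intro f h1 h2; rw [hX]; exact ⟨h1, h2⟩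
    -- the function which is `1` off `0`
    let g : ℝ≥0 → ℝ≥0 := fun x => if x = 0 then 0 else 1
    have hg : g ∈ Preservers X := by
      intro Y ρ hY
      have hρ := X.isMetric Y ρ hY
      have hm : ∀ f : ℝ≥0 → ℝ≥0, Function.Bijective f → Amenable f →
          IsMetric (fun x y => f (ρ x y)) :=
        fun f h1 h2 => X.isMetric _ _ (hA f h1 h2 Y ρ hY)
      by_cases hsub : ∀ x y : Y, x = y
      · have : (fun x y => g (ρ x y)) = ρ := by
          funext x y
          have h0 : ρ x y = 0 := (hρ.1 _ _).2 (hsub x y)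
          simp [g, h0]
        rw [this]; exact hY
      · push Not at hsub
        obtain ⟨a, b, hab⟩ := hsub
        have hk : ρ a b ≠ 0 := fun h0 => hab ((hρ.1 _ _).1 h0)
        have hmem := hA (Equiv.swap (ρ a b) 1) (Equiv.bijective _)
          (swap_amenable hk one_ne_zero) Y ρ hY
        have : (fun x y => g (ρ x y)) = fun x y => Equiv.swap (ρ a b) 1 (ρ x y) := by
          funext x y
          by_cases hxy : x = y
          · have h0 : ρ x y = 0 := (hρ.1 _ _).2 hxy
            simp only [g, h0, if_true]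
            exact (Equiv.swap_apply_of_ne_of_ne hk.symm one_ne_zero.symm).symm
          · have h0 : ρ x y = ρ a b := all_eq hρ hm hxy hab
            simp only [g, h0, if_neg hk, Equiv.swap_apply_left]
        rw [this]; exact hmem
    rw [hX] at hg
    have h12 : g 1 = g 2 := by simp [g]
    have := hg.1.1 h12
    norm_num at this

end Pool.Agent.Results.MP_6117a1_gt.SubmonoidNotRealised
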